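import Pool.Agent.R284.BL2

set_option autoImplicit false

/-!
# MP_f651fd_an: compact `L`-asymptotic limits of power bounded operators have finite rank

The definitions `BanachLimit`, `PowerBounded`, `IsAsymptoticLimit` are in `Pool.Agent.R284.BL`.

Idea of the proof: let `B = A^{1/2}`. If `A` has infinite rank choose, for any `N`, vectors
`x_1, …, x_N` with `⟪x_i, A x_j⟫ = δ_ij`. By `T* A T = A` the vectors `w_i = B T^m x_i` are
orthonormal for every `m`, so `N = ∑ ⟪T^m x_i, B w_i⟫`, while `∑ ‖B w_i‖² = ∑ ⟪w_i, A w_i⟫ = o(N)` as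
`A` is compact. Hence `∑ ‖T^m x_i‖² ≥ 2 N` for all `m`, but its `L`-average is
`∑ ⟪x_i, A x_i⟫ = N`.
-/

namespace Pool.Agent.Results.MP_f651fd_an.CompactFiniteRank

open Pool.Agent.R284.BL

/-- Let `L` be a Banach limit, `T` a power bounded operator on a complex Hilbert space `H` and `A` its
`L`-asymptotic limit. If `A` is compact, then `A` has finite rank. In particular, if `H` is
infinite-dimensional, then `A` is not at the same time compact and injective. -/
theorem result {H : Type*} [NormedAddCommGroup H] [InnerProductSpace ℂ H] [CompleteSpace H]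
    (L : BanachLimit) (T A : H →L[ℂ] H) (hT : PowerBounded T) (hA : IsAsymptoticLimit L T A)
    (hc : IsCompactOperator A) :
    FiniteDimensional ℂ (LinearMap.range (A : H →ₗ[ℂ] H)) ∧
      (¬ FiniteDimensional ℂ H → ¬ Function.Injective A) := by
  have h := finite_rank hT hA hc
  refine ⟨h, fun hH hinj => hH ?_⟩
  exact Module.Finite.equiv (LinearEquiv.ofInjective (A : H →ₗ[ℂ] H) hinj).symm

end Pool.Agent.Results.MP_f651fd_an.CompactFiniteRank
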